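import Mathlib

/-!
# Critical rings of characteristic two with `x ^ 2 = 0`

The finite rings with `2 x = 0` and `x ^ 2 = 0` for all `x` satisfy `x ^ 3 = x ^ n` for every
`n ≥ 4`.  Up to isomorphism the critical ones among them are the rings `Nk k`, `k ≥ 0`.

If `x 0 * ⋯ * x k ≠ 0`, the squarefree monomials in the `x i` are linearly independent, so that the
subring generated by them has `2 ^ (2 ^ (k + 1) - 1)` elements; hence in a ring generated by `k + 1`
elements with nonzero product the identity `y 0 * ⋯ * y k = 0` fails, but it holds in all proper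
factors.  Conversely let `k + 1` be the largest length of a nonzero product; the identities of the
subring generated by its factors (squarefree polynomials) hold in the whole ring.
-/

set_option autoImplicit false

namespace Pool.Agent.Results.MP_1bb14d_al.SquareZeroCharTwo

universe u

/-- Terms in the language `(+, -, 0, ·)` of rings, in countably many variables. -/
inductive RTerm : Type
  | var : ℕ → RTerm
  | zero : RTerm
  | add : RTerm → RTerm → RTerm
  | neg : RTerm → RTerm
  | mul : RTerm → RTerm → RTerm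

/-- The value of a term in a ring. -/
def RTerm.eval {A : Type u} [NonUnitalRing A] (v : ℕ → A) : RTerm → A
  | .var n => v n
  | .zero => 0
  | .add s t => s.eval v + t.eval v
  | .neg s => -(s.eval v)
  | .mul s t => s.eval v * t.eval v

/-- The identity `s = t` holds in the ring `A`. -/
def Holds (A : Type u) [NonUnitalRing A] (s t : RTerm) : Prop :=
  ∀ v : ℕ → A, s.eval v = t.eval v

/-- `R` is critical: it does not lie in the variety generated by its proper factors, that is,
some identity holds in all the rings `S / I` which are not isomorphic to `R`, where `S` is a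
subring of `R` and `I` is a two-sided ideal of `S`, and does not hold in `R`. -/
def IsCritical (R : Type u) [NonUnitalRing R] : Prop :=
  ∃ s t : RTerm, (∀ (S : NonUnitalSubring R) (I : TwoSidedIdeal S),
    IsEmpty (I.ringCon.Quotient ≃+* R) → Holds I.ringCon.Quotient s t) ∧ ¬ Holds R s t

/-- The product `x 0 * x 1 * ⋯ * x k` of `k + 1` elements. -/
def pr {R : Type u} [NonUnitalRing R] (x : ℕ → R) : ℕ → R
  | 0 => x 0
  | k + 1 => pr x k * x (k + 1)

/-- The term `x 0 * x 1 * ⋯ * x k`. -/
def prt : ℕ → RTerm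
  | 0 => .var 0
  | k + 1 => .mul (prt k) (.var (k + 1))

lemma eval_prt {R : Type u} [NonUnitalRing R] (v : ℕ → R) (k : ℕ) :
    (prt k).eval v = pr v k := by
  induction k with
  | zero => rfl
  | succ k ih => simp only [prt, RTerm.eval, ih, pr]

lemma coe_eval {R : Type u} [NonUnitalRing R] (I : TwoSidedIdeal R) (v : ℕ → R) (t : RTerm) :
    ((t.eval v : R) : I.ringCon.Quotient) =
      t.eval (fun n => ((v n : R) : I.ringCon.Quotient)) := by
  induction t with
  | var n => rfl
  | zero => rfl
  | add s t hs ht => simp only [RTerm.eval, RingCon.coe_add, hs, ht]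
  | neg s hs => simp only [RTerm.eval, RingCon.coe_neg, hs]
  | mul s t hs ht => simp only [RTerm.eval, RingCon.coe_mul, hs, ht]

lemma holds_quot {R : Type u} [NonUnitalRing R] (I : TwoSidedIdeal R) (s t : RTerm) :
    Holds I.ringCon.Quotient s t ↔ ∀ v : ℕ → R, s.eval v - t.eval v ∈ I := by
  constructor
  · intro h v
    have h1 := h (fun n => ((v n : R) : I.ringCon.Quotient))
    rw [← coe_eval, ← coe_eval, RingCon.eq, TwoSidedIdeal.rel_iff] at h1
    exact h1
  · intro h w
    have hs : ∀ q : I.ringCon.Quotient, ∃ a : R, (a : I.ringCon.Quotient) = q := by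
      intro q
      induction q using Quotient.inductionOn' with
      | h a => exact ⟨a, rfl⟩
    choose g hg using hs
    have hw : w = fun n => ((g (w n) : R) : I.ringCon.Quotient) := by
      funext n; exact (hg _).symm
    rw [hw, ← coe_eval, ← coe_eval, RingCon.eq, TwoSidedIdeal.rel_iff]
    exact h _

lemma coe_eval_sub {R : Type u} [NonUnitalRing R] (S : NonUnitalSubring R) (v : ℕ → S)
    (t : RTerm) : ((t.eval v : S) : R) = t.eval (fun n => ((v n : S) : R)) := by
  induction t with
  | var n => rfl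
  | zero => rfl
  | add s t hs ht =>
    show ((s.eval v : S) : R) + ((t.eval v : S) : R) = _
    rw [hs, ht]; rfl
  | neg s hs =>
    show -((s.eval v : S) : R) = _
    rw [hs]; rfl
  | mul s t hs ht =>
    show ((s.eval v : S) : R) * ((t.eval v : S) : R) = _
    rw [hs, ht]; rfl

section core

variable {R : Type u} [NonUnitalCommRing R] {U : Type u} [CommRing U] (f : R →ₙ+* U)

lemma map_pr (y : ℕ → R) (k : ℕ) : f (pr y k) = ∏ i ∈ Finset.range (k + 1), f (y i) := by
  induction k with
  | zero => simp [pr]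
  | succ k ih => rw [pr, map_mul, ih, Finset.prod_range_succ _ (k + 1)]

/-- The nonempty subsets of `{0, …, k}`. -/
abbrev PP (k : ℕ) : Finset (Finset ℕ) := (Finset.range (k + 1)).powerset.erase ∅

lemma mem_PP {k : ℕ} {A : Finset ℕ} : A ∈ PP k ↔ A ≠ ∅ ∧ A ⊆ Finset.range (k + 1) := by
  simp [PP]

/-- The squarefree monomial. -/
def mon (y : ℕ → R) (A : Finset ℕ) : U := ∏ i ∈ A, f (y i)

variable (h2 : ∀ x : R, x + x = 0) (hsq : ∀ x : R, x * x = 0)

include hsq in
lemma mon_mul (y : ℕ → R) (A B : Finset ℕ) (h : ¬ Disjoint A B) :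
    mon f y A * mon f y B = 0 := by
  classical
  rw [Finset.not_disjoint_iff] at h
  obtain ⟨i, hA, hB⟩ := h
  rw [mon, mon, ← Finset.mul_prod_erase A _ hA, ← Finset.mul_prod_erase B _ hB]
  have : f (y i) * f (y i) = 0 := by rw [← map_mul, hsq, map_zero]
  calc _ = (f (y i) * f (y i)) * ((∏ x ∈ A.erase i, f (y x)) * ∏ x ∈ B.erase i, f (y x)) := by ring
    _ = 0 := by rw [this, zero_mul]

lemma mon_mul' (y : ℕ → R) (A B : Finset ℕ) (h : Disjoint A B) :
    mon f y A * mon f y B = mon f y (A ∪ B) := by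
  classical
  rw [mon, mon, mon, Finset.prod_union h]

lemma mon_range (y : ℕ → R) (A : Finset ℕ) (hA : A ≠ ∅) : ∃ r : R, f r = mon f y A := by
  classical
  induction A using Finset.induction_on with
  | empty => exact absurd rfl hA
  | insert a s ha ih =>
    by_cases hs : s = ∅
    · subst hs
      exact ⟨y a, by simp [mon]⟩
    · obtain ⟨r, hr⟩ := ih hs
      exact ⟨y a * r, by rw [map_mul, hr, mon, mon, Finset.prod_insert ha]⟩

lemma mon_mem (S : NonUnitalSubring R) (y : ℕ → R) (A : Finset ℕ) (hA : A ≠ ∅)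
    (hy : ∀ i ∈ A, y i ∈ S) : ∃ r ∈ S, f r = mon f y A := by
  classical
  induction A using Finset.induction_on with
  | empty => exact absurd rfl hA
  | insert a s ha ih =>
    by_cases hs : s = ∅
    · subst hs
      exact ⟨y a, hy a (by simp), by simp [mon]⟩
    · obtain ⟨r, hr, hr'⟩ := ih hs (fun i hi => hy i (by simp [hi]))
      exact ⟨y a * r, S.mul_mem (hy a (by simp)) hr, by
        rw [map_mul, hr', mon, mon, Finset.prod_insert ha]⟩

include h2 in
lemma two_mon (y : ℕ → R) (A : Finset ℕ) (hA : A ≠ ∅) : mon f y A + mon f y A = 0 := by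
  obtain ⟨r, hr⟩ := mon_range f y A hA
  rw [← hr, ← map_add, h2, map_zero]

/-- The linear combination. -/
def Phi (y : ℕ → R) (k : ℕ) (a : Finset ℕ → ZMod 2) : U :=
  ∑ A ∈ PP k, (a A).val • mon f y A

lemma val_add (m : U) (hm : m + m = 0) (a b : ZMod 2) :
    (a + b).val • m = a.val • m + b.val • m := by
  have h : ∀ a b : ZMod 2, (a + b).val = a.val + b.val ∨ (a + b).val + 2 = a.val + b.val := by
    decide
  rcases h a b with h | h
  · rw [h, add_smul]
  · rw [← add_smul, ← h, add_smul, two_smul, hm, add_zero]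

include h2 in
lemma Phi_add (y : ℕ → R) (k : ℕ) (a b : Finset ℕ → ZMod 2) :
    Phi f y k (a + b) = Phi f y k a + Phi f y k b := by
  rw [Phi, Phi, Phi, ← Finset.sum_add_distrib]
  refine Finset.sum_congr rfl (fun A hA => ?_)
  exact val_add _ (two_mon f h2 y A (mem_PP.1 hA).1) _ _

include hsq in
/-- The main computation: a nonzero combination divides the full product. -/
lemma Phi_key (y : ℕ → R) (k : ℕ) (a : Finset ℕ → ZMod 2) (A : Finset ℕ) (hA : A ∈ PP k)
    (ha : a A ≠ 0) :
    ∃ B : Finset ℕ, B ⊆ Finset.range (k + 1) ∧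
      Phi f y k a * mon f y B = mon f y (Finset.range (k + 1)) := by
  classical
  obtain ⟨B, hB, hmin⟩ := Finset.exists_min_image ((PP k).filter (fun A => a A ≠ 0)) Finset.card
    ⟨A, by simp only [Finset.mem_filter]; exact ⟨hA, ha⟩⟩
  rw [Finset.mem_filter] at hB
  refine ⟨Finset.range (k + 1) \ B, Finset.sdiff_subset, ?_⟩
  rw [Phi, Finset.sum_mul, Finset.sum_eq_single B]
  · have h1 : (a B).val = 1 := by
      have : ∀ z : ZMod 2, z ≠ 0 → z.val = 1 := by decide
      exact this _ hB.2
    rw [h1, one_smul, mon_mul' _ _ _ _ Finset.disjoint_sdiff,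
      Finset.union_sdiff_of_subset (mem_PP.1 hB.1).2]
  · intro C hC hne
    by_cases hc : a C = 0
    · rw [hc]; simp
    · have h1 := hmin C (by rw [Finset.mem_filter]; exact ⟨hC, hc⟩)
      have h3 : ¬ C ⊆ B := fun h => hne (Finset.eq_of_subset_of_card_le h h1)
      rw [smul_mul_assoc, mon_mul f hsq, smul_zero]
      intro hd
      apply h3
      intro i hi
      by_contra hcon
      exact Finset.disjoint_left.1 hd hi (Finset.mem_sdiff.2 ⟨(mem_PP.1 hC).2 hi, hcon⟩)
  · intro h; exact absurd hB.1 h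

/-- The set of the linear combinations. -/
def TT (y : ℕ → R) (k : ℕ) : AddSubmonoid U where
  carrier := {u | ∃ a, u = Phi f y k a}
  zero_mem' := ⟨0, by simp [Phi]⟩
  add_mem' := by
    rintro _ _ ⟨a, rfl⟩ ⟨b, rfl⟩
    exact ⟨a + b, (Phi_add f h2 y k a b).symm⟩

include h2 in
lemma mon_mem_TT (y : ℕ → R) (k : ℕ) (A : Finset ℕ) (hA : A ∈ PP k) :
    mon f y A ∈ TT f h2 y k := by
  classical
  refine ⟨fun B => if B = A then 1 else 0, ?_⟩
  rw [Phi, Finset.sum_eq_single A]
  · simp [ZMod.val_one]
  · intro B _ hne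
    simp [hne]
  · intro h; exact absurd hA h

include h2 hsq in
lemma surj (y : ℕ → R) (k : ℕ) (hy : NonUnitalSubring.closure (y '' {i | i ≤ k}) = ⊤) (r : R) :
    f r ∈ TT f h2 y k := by
  classical
  have hr : r ∈ NonUnitalSubring.closure (y '' {i | i ≤ k}) := by rw [hy]; trivial
  induction hr using NonUnitalSubring.closure_induction with
  | mem x hx =>
    obtain ⟨i, hi, rfl⟩ := hx
    have : f (y i) = mon f y {i} := by simp [mon]
    rw [this]
    refine mon_mem_TT f h2 y k _ (mem_PP.2 ⟨by simp, ?_⟩)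
    intro j hj
    rw [Finset.mem_singleton] at hj
    subst hj
    exact Finset.mem_range.2 (Nat.lt_succ_of_le hi)
  | zero => rw [map_zero]; exact (TT f h2 y k).zero_mem
  | add a b _ _ ha hb => rw [map_add]; exact (TT f h2 y k).add_mem ha hb
  | neg a _ ha =>
    have : -a = a := neg_eq_of_add_eq_zero_left (h2 a)
    rw [this]; exact ha
  | mul a b _ _ ha hb =>
    rw [map_mul]
    obtain ⟨a', ha'⟩ := ha
    obtain ⟨b', hb'⟩ := hb
    rw [ha', hb', Phi, Phi, Finset.sum_mul_sum]
    refine (TT f h2 y k).sum_mem (fun A hA => (TT f h2 y k).sum_mem (fun B hB => ?_))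
    rw [smul_mul_smul_comm]
    refine (TT f h2 y k).nsmul_mem ?_ _
    by_cases hd : Disjoint A B
    · rw [mon_mul' _ _ _ _ hd]
      refine mon_mem_TT f h2 y k _ (mem_PP.2 ⟨?_, Finset.union_subset (mem_PP.1 hA).2
        (mem_PP.1 hB).2⟩)
      intro h
      rw [Finset.union_eq_empty] at h
      exact (mem_PP.1 hA).1 h.1
    · rw [mon_mul f hsq _ _ _ hd]
      exact (TT f h2 y k).zero_mem

include h2 hsq in
lemma inj (y : ℕ → R) (k : ℕ) (hy : mon f y (Finset.range (k + 1)) ≠ 0)
    (a b : Finset ℕ → ZMod 2) (hab : Phi f y k a = Phi f y k b) (A : Finset ℕ) (hA : A ∈ PP k) :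
    a A = b A := by
  by_contra hne
  have h1 : (a + b) A ≠ 0 := by
    intro h
    apply hne
    rw [Pi.add_apply] at h
    exact CharTwo.add_eq_zero.1 h
  obtain ⟨B, -, hB⟩ := Phi_key f hsq y k (a + b) A hA h1
  rw [Phi_add f h2, ← hab, ← Phi_add f h2] at hB
  have h3 : a + a = 0 := by
    funext A
    exact CharTwo.add_self_eq_zero (a A)
  rw [h3] at hB
  have h4 : Phi f y k 0 = 0 := by simp [Phi]
  rw [h4, zero_mul] at hB
  exact hy hB.symm

lemma Phi_mem (y : ℕ → R) (k : ℕ) (a : Finset ℕ → ZMod 2) :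
    ∃ r ∈ NonUnitalSubring.closure (y '' {i | i ≤ k}), f r = Phi f y k a := by
  classical
  set S := NonUnitalSubring.closure (y '' {i | i ≤ k}) with hS
  have h : ∀ A : Finset ℕ, A ∈ PP k → ∃ r ∈ S, f r = mon f y A := fun A hA =>
    mon_mem f S y A (mem_PP.1 hA).1 (fun i hi => NonUnitalSubring.subset_closure
      ⟨i, Nat.le_of_lt_succ (Finset.mem_range.1 ((mem_PP.1 hA).2 hi)), rfl⟩)
  have h' : ∀ A : Finset ℕ, ∃ r ∈ S, A ∈ PP k → f r = mon f y A := by
    intro A
    by_cases hA : A ∈ PP k
    · obtain ⟨r, hr, hr'⟩ := h A hA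
      exact ⟨r, hr, fun _ => hr'⟩
    · exact ⟨0, S.zero_mem, fun h => absurd h hA⟩
  choose g hg hg' using h'
  refine ⟨∑ A ∈ PP k, (a A).val • g A, sum_mem (fun A _ => nsmul_mem (hg A) _), ?_⟩
  rw [map_sum, Phi]
  refine Finset.sum_congr rfl (fun A hA => ?_)
  rw [map_nsmul, hg' A hA]

/-- Extension by zero. -/
noncomputable def ext0 (k : ℕ) (a : {A // A ∈ PP k} → ZMod 2) : Finset ℕ → ZMod 2 :=
  fun A => by
    classical
    exact if h : A ∈ PP k then a ⟨A, h⟩ else 0

lemma ext0_apply (k : ℕ) (a : {A // A ∈ PP k} → ZMod 2) (A : {A // A ∈ PP k}) :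
    ext0 k a A = a A := by
  classical
  unfold ext0
  simp

lemma Phi_ext0 (y : ℕ → R) (k : ℕ) (a : Finset ℕ → ZMod 2) :
    Phi f y k (ext0 k (fun A => a A)) = Phi f y k a := by
  rw [Phi, Phi]
  refine Finset.sum_congr rfl (fun A hA => ?_)
  rw [ext0_apply k (fun A => a A) ⟨A, hA⟩]

include h2 hsq in
lemma gen_of_ne [Finite R] (hf : Function.Injective f) (x y : ℕ → R) (k : ℕ)
    (hx : NonUnitalSubring.closure (x '' {i | i ≤ k}) = ⊤)
    (hy : mon f y (Finset.range (k + 1)) ≠ 0) :
    NonUnitalSubring.closure (y '' {i | i ≤ k}) = ⊤ := by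
  classical
  set S := NonUnitalSubring.closure (y '' {i | i ≤ k}) with hS
  have hsur : ∀ r : R, ∃ a : {A // A ∈ PP k} → ZMod 2, f r = Phi f x k (ext0 k a) := by
    intro r
    obtain ⟨a, ha⟩ := surj f h2 hsq x k hx r
    exact ⟨fun A => a A, by rw [ha, Phi_ext0]⟩
  choose φ hφ using hsur
  have hφi : Function.Injective φ := by
    intro r r' h
    apply hf
    rw [hφ, hφ, h]
  have hin : ∀ a : {A // A ∈ PP k} → ZMod 2, ∃ r : S, f r = Phi f y k (ext0 k a) := by
    intro a
    obtain ⟨r, hr, hr'⟩ := Phi_mem f y k (ext0 k a)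
    exact ⟨⟨r, hr⟩, hr'⟩
  choose ψ hψ using hin
  have hψi : Function.Injective ψ := by
    intro a b h
    funext A
    have h1 := inj f h2 hsq y k hy (ext0 k a) (ext0 k b) (by rw [← hψ, ← hψ, h]) A A.2
    rwa [ext0_apply, ext0_apply] at h1
  have h3 : Function.Injective (fun r : R => ((ψ (φ r) : S) : R)) :=
    Subtype.val_injective.comp (hψi.comp hφi)
  have h4 := Finite.surjective_of_injective h3
  rw [eq_top_iff]
  intro r _
  obtain ⟨r', hr'⟩ := h4 r
  rw [← hr']
  exact (ψ (φ r')).2

include h2 in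
lemma even_mul_mon (c : ℤ) (hc : Even c) (y : ℕ → R) (A : Finset ℕ) (hA : A ≠ ∅) :
    (c : U) * mon f y A = 0 := by
  obtain ⟨q, rfl⟩ := hc
  push_cast
  have := two_mon f h2 y A hA
  calc ((q : U) + q) * mon f y A = q * (mon f y A + mon f y A) := by ring
    _ = 0 := by rw [this, mul_zero]

/-- The polynomial of a term. -/
noncomputable def poly : RTerm → MvPolynomial ℕ ℤ
  | .var n => MvPolynomial.X n
  | .zero => 0
  | .add s t => poly s + poly t
  | .neg s => -(poly s)
  | .mul s t => poly s * poly t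

lemma poly_eval (v : ℕ → R) (t : RTerm) :
    f (t.eval v) = MvPolynomial.eval₂ (Int.castRingHom U) (fun n => f (v n)) (poly t) := by
  induction t with
  | var n => simp [RTerm.eval, poly]
  | zero => simp [RTerm.eval, poly]
  | add s t hs ht => simp [RTerm.eval, poly, hs, ht, MvPolynomial.eval₂_add]
  | neg s hs =>
    have := (MvPolynomial.eval₂Hom (Int.castRingHom U) (fun n => f (v n))).map_neg (poly s)
    simp only [MvPolynomial.coe_eval₂Hom] at this
    simp only [RTerm.eval, poly, map_neg, hs, this]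
  | mul s t hs ht => simp [RTerm.eval, poly, hs, ht, MvPolynomial.eval₂_mul]

lemma poly_coeff (t : RTerm) : MvPolynomial.constantCoeff (poly t) = 0 := by
  induction t with
  | var n => simp [poly]
  | zero => simp [poly]
  | add s t hs ht => simp [poly, hs, ht]
  | neg s hs => simp [poly, hs]
  | mul s t hs ht => simp [poly, hs, ht]

include hsq in
lemma tv_two (v : ℕ → R) (m : ℕ →₀ ℕ) (i : ℕ) (hi : 2 ≤ m i) :
    ∏ j ∈ m.support, f (v j) ^ m j = 0 := by
  apply Finset.prod_eq_zero (i := i)
  · rw [Finsupp.mem_support_iff]; omega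
  · obtain ⟨d, hd⟩ := Nat.exists_eq_add_of_le hi
    rw [hd, pow_add, pow_two, ← map_mul, hsq, map_zero, zero_mul]

lemma tv_one (v : ℕ → R) (m : ℕ →₀ ℕ) (hm : ∀ i, m i ≤ 1) :
    ∏ j ∈ m.support, f (v j) ^ m j = mon f v m.support := by
  rw [mon]
  refine Finset.prod_congr rfl (fun j hj => ?_)
  have h1 := hm j
  have h3 : m j ≠ 0 := Finsupp.mem_support_iff.1 hj
  have : m j = 1 := by omega
  rw [this, pow_one]

lemma mon_reindex (v : ℕ → R) (A : Finset ℕ) (n : ℕ) (hn : A.card = n) :
    ∃ y : ℕ → R, mon f y (Finset.range n) = mon f v A := by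
  classical
  have e : Fin n ≃ A := (A.equivFinOfCardEq hn).symm
  refine ⟨fun i => if h : i < n then v (e ⟨i, h⟩) else 0, ?_⟩
  rw [mon, mon, Finset.prod_range]
  simp only [Fin.is_lt, dif_pos]
  rw [← Finset.prod_coe_sort A, ← Equiv.prod_comp e]

lemma mon_reindex' (y : ℕ → R) (A : Finset ℕ) (n : ℕ) (hn : A.card = n) :
    ∃ w : ℕ → R, mon f w A = mon f y (Finset.range n) ∧ (∀ i ∉ A, w i = 0) ∧
      ∀ i, w i = 0 ∨ ∃ j < n, w i = y j := by
  classical
  have e : A ≃ Fin n := A.equivFinOfCardEq hn
  refine ⟨fun i => if h : i ∈ A then y (e ⟨i, h⟩) else 0, ?_, ?_, ?_⟩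
  · rw [mon, mon, Finset.prod_range, ← Equiv.prod_comp e, ← Finset.prod_coe_sort A]
    refine Finset.prod_congr rfl (fun i _ => ?_)
    simp
  · intro i hi; simp [hi]
  · intro i
    by_cases h : i ∈ A
    · right
      exact ⟨e ⟨i, h⟩, (e ⟨i, h⟩).2, by simp [h]⟩
    · left; simp [h]

lemma mon_big (c : ℕ) (hc : ∀ y : ℕ → R, mon f y (Finset.range (c + 1)) = 0) (v : ℕ → R)
    (A : Finset ℕ) (hA : c + 1 ≤ A.card) : mon f v A = 0 := by
  classical
  obtain ⟨B, hB, hBc⟩ := Finset.exists_subset_card_eq hA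
  obtain ⟨y, hy⟩ := mon_reindex f v B _ hBc
  have h1 : mon f v B = 0 := by rw [← hy, hc]
  rw [mon, ← Finset.prod_sdiff hB]
  rw [mon] at h1
  rw [h1, mul_zero]

lemma mon_sub (y : ℕ → R) (A B : Finset ℕ) (h : A ⊆ B) (hB : mon f y B ≠ 0) :
    mon f y A ≠ 0 := by
  classical
  intro h1
  apply hB
  rw [mon, ← Finset.prod_sdiff h]
  rw [mon] at h1
  rw [h1, mul_zero]

include h2 hsq in
lemma even_coeff (g : MvPolynomial ℕ ℤ) (hg : MvPolynomial.constantCoeff g = 0) (c : ℕ)
    (y : ℕ → R) (hy : mon f y (Finset.range (c + 1)) ≠ 0)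
    (hS : ∀ w : ℕ → R, (∀ i, w i = 0 ∨ ∃ j < c + 1, w i = y j) →
      MvPolynomial.eval₂ (Int.castRingHom U) (fun n => f (w n)) g = 0) :
    ∀ (n : ℕ) (m : ℕ →₀ ℕ), m.support.card = n → n ≤ c + 1 → (∀ i, m i ≤ 1) →
      Even (g.coeff m) := by
  intro n
  induction n using Nat.strong_induction_on with
  | _ n ih =>
    intro m hm hn hm1
    by_cases h0 : m = 0
    · subst h0
      have : g.coeff 0 = 0 := by rw [← MvPolynomial.constantCoeff_eq]; exact hg
      rw [this]; exact Even.zero
    have hsup : m.support ≠ ∅ := fun h => h0 (Finsupp.support_eq_empty.1 h)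
    obtain ⟨w, hw1, hw2, hw3⟩ := mon_reindex' f y m.support n hm
    have h1 := hS w (fun i => by
      rcases hw3 i with h | ⟨j, hj, h⟩
      · exact Or.inl h
      · exact Or.inr ⟨j, lt_of_lt_of_le hj hn, h⟩)
    have hne : mon f w m.support ≠ 0 := by
      rw [hw1]
      exact mon_sub f y _ _ (Finset.range_subset_range.2 hn) hy
    by_cases hmem : m ∈ g.support
    · rw [MvPolynomial.eval₂_eq, Finset.sum_eq_single m, tv_one f w m hm1] at h1
      · by_contra hodd
        rw [Int.not_even_iff_odd] at hodd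
        obtain ⟨q, hq⟩ := hodd
        apply hne
        have h5 := two_mon f h2 w m.support hsup
        rw [hq] at h1
        simp only [eq_intCast, Int.cast_add, Int.cast_mul, Int.cast_ofNat, Int.cast_one] at h1
        calc mon f w m.support = (2 * (q : U) + 1) * mon f w m.support
              - q * (mon f w m.support + mon f w m.support) := by ring
          _ = 0 := by rw [h1, h5, mul_zero, sub_zero]
      · intro m' hm' hne'
        by_cases hsf : ∀ i, m' i ≤ 1
        · rw [tv_one f w m' hsf]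
          by_cases hsub : m'.support ⊆ m.support
          · have hcard : m'.support.card < n := by
              rw [← hm]
              refine Finset.card_lt_card (Finset.ssubset_iff_subset_ne.2 ⟨hsub, fun h => hne' ?_⟩)
              ext i
              by_cases hi : i ∈ m.support
              · have h6 : i ∈ m'.support := by rw [h]; exact hi
                have h7 := Finsupp.mem_support_iff.1 hi
                have h8 := Finsupp.mem_support_iff.1 h6
                have := hsf i
                have := hm1 i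
                omega
              · have h6 : i ∉ m'.support := by rw [h]; exact hi
                rw [Finsupp.notMem_support_iff.1 hi, Finsupp.notMem_support_iff.1 h6]
            have hev := ih _ hcard m' rfl (by omega) hsf
            have hs' : m'.support ≠ ∅ := by
              intro h
              have h9 := Finsupp.support_eq_empty.1 h
              subst h9
              rw [MvPolynomial.mem_support_iff, ← MvPolynomial.constantCoeff_eq] at hm'
              exact hm' hg
            simpa using even_mul_mon f h2 _ hev w _ hs'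
          · obtain ⟨i, hi, hi'⟩ := Finset.not_subset.1 hsub
            rw [mon, Finset.prod_eq_zero hi (by rw [hw2 i hi', map_zero]), mul_zero]
        · push Not at hsf
          obtain ⟨i, hi⟩ := hsf
          rw [tv_two f hsq w m' i hi, mul_zero]
      · intro h; exact absurd hmem h
    · rw [MvPolynomial.notMem_support_iff.1 hmem]; exact Even.zero

include h2 hsq in
lemma vanish (g : MvPolynomial ℕ ℤ) (hg : MvPolynomial.constantCoeff g = 0) (c : ℕ)
    (hc : ∀ y : ℕ → R, mon f y (Finset.range (c + 2)) = 0)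
    (hev : ∀ m : ℕ →₀ ℕ, m.support.card ≤ c + 1 → (∀ i, m i ≤ 1) → Even (g.coeff m))
    (v : ℕ → R) : MvPolynomial.eval₂ (Int.castRingHom U) (fun n => f (v n)) g = 0 := by
  rw [MvPolynomial.eval₂_eq]
  refine Finset.sum_eq_zero (fun m hm => ?_)
  by_cases hsf : ∀ i, m i ≤ 1
  · rw [tv_one f v m hsf]
    by_cases hcard : m.support.card ≤ c + 1
    · have hs' : m.support ≠ ∅ := by
        intro h
        have h9 := Finsupp.support_eq_empty.1 h
        subst h9
        rw [MvPolynomial.mem_support_iff, ← MvPolynomial.constantCoeff_eq] at hm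
        exact hm hg
      simpa using even_mul_mon f h2 _ (hev m hcard hsf) v _ hs'
    · rw [mon_big f (c + 1) hc v _ (by omega), mul_zero]
  · push Not at hsf
    obtain ⟨i, hi⟩ := hsf
    rw [tv_two f hsq v m i hi, mul_zero]

end core

/-- The projection to a factor ring. -/
def qmap {R : Type u} [NonUnitalRing R] (I : TwoSidedIdeal R) : R →ₙ+* I.ringCon.Quotient where
  toFun a := (a : I.ringCon.Quotient)
  map_mul' _ _ := rfl
  map_zero' := rfl
  map_add' _ _ := rfl

lemma qmap_surj {R : Type u} [NonUnitalRing R] (I : TwoSidedIdeal R) :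
    Function.Surjective (qmap I) := by
  intro q
  induction q using Quotient.inductionOn' with
  | h a => exact ⟨a, rfl⟩

lemma qmap_bot_inj {R : Type u} [NonUnitalRing R] :
    Function.Injective (qmap (⊥ : TwoSidedIdeal R)) := by
  intro a b h
  have h1 : ((a : R) : (⊥ : TwoSidedIdeal R).ringCon.Quotient) = (b : R) := h
  rw [RingCon.eq, TwoSidedIdeal.rel_iff, TwoSidedIdeal.mem_bot] at h1
  exact sub_eq_zero.1 h1

lemma exists_embedding (R : Type u) [NonUnitalCommRing R] :
    ∃ (U : Type u) (_ : CommRing U) (f : R →ₙ+* U), Function.Injective f :=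
  ⟨Unitization ℤ R, inferInstance, Unitization.inrNonUnitalAlgHom ℤ R, Unitization.inr_injective⟩

lemma crit_of_gen {R : Type u} [NonUnitalCommRing R] [Finite R] (h2 : ∀ x : R, x + x = 0)
    (hsq : ∀ x : R, x * x = 0) (x : ℕ → R) (k : ℕ)
    (hx : NonUnitalSubring.closure (x '' {i | i ≤ k}) = ⊤) (hne : pr x k ≠ 0) :
    IsCritical R := by
  classical
  refine ⟨prt k, .zero, ?_, ?_⟩
  · intro S I hI
    rw [holds_quot]
    intro v
    have h0 : (RTerm.zero).eval v = (0 : S) := rfl
    rw [h0, sub_zero]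
    by_cases hP : (prt k).eval v = (0 : S)
    · rw [hP]; exact I.zero_mem
    obtain ⟨U, _, f, hf⟩ := exists_embedding R
    set w : ℕ → R := fun n => (v n : R) with hwdef
    have hw : (((prt k).eval v : S) : R) = pr w k := by rw [coe_eval_sub, eval_prt]
    have hmon : mon f w (Finset.range (k + 1)) = f (((prt k).eval v : S) : R) := by
      rw [hw, map_pr]; rfl
    have hmon0 : mon f w (Finset.range (k + 1)) ≠ 0 := by
      rw [hmon]
      intro h
      apply hP
      apply Subtype.ext
      apply hf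
      rw [h]
      exact (map_zero f).symm
    have hgen := gen_of_ne f h2 hsq hf x w k hx hmon0
    have hS : S = ⊤ := by
      rw [eq_top_iff, ← hgen, NonUnitalSubring.closure_le]
      rintro _ ⟨i, _, rfl⟩
      exact (v i).2
    have hIb : I ≠ ⊥ := by
      intro hb
      subst hb
      refine hI.false ?_
      exact (RingEquiv.ofBijective (qmap (⊥ : TwoSidedIdeal S)) ⟨qmap_bot_inj,
        qmap_surj _⟩).symm.trans (RingEquiv.ofBijective (NonUnitalSubringClass.subtype S)
          ⟨Subtype.val_injective, fun r => ⟨⟨r, by rw [hS]; trivial⟩, rfl⟩⟩)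
    obtain ⟨z, hz, hz0⟩ : ∃ z ∈ I, z ≠ 0 := by
      by_contra hcon
      push Not at hcon
      apply hIb
      ext z
      rw [TwoSidedIdeal.mem_bot]
      exact ⟨hcon z, fun h => h ▸ I.zero_mem⟩
    obtain ⟨a, ha⟩ := surj f h2 hsq w k hgen (z : R)
    obtain ⟨A, hA, hA'⟩ : ∃ A ∈ PP k, a A ≠ 0 := by
      by_contra hcon
      push Not at hcon
      apply hz0
      apply Subtype.ext
      apply hf
      rw [ha, Phi]
      rw [Finset.sum_eq_zero (fun A hA => by rw [hcon A hA]; simp)]
      exact (map_zero f).symm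
    obtain ⟨B, hB, hB'⟩ := Phi_key f hsq w k a A hA hA'
    rw [← ha, hmon] at hB'
    by_cases hBe : B = ∅
    · subst hBe
      rw [mon, Finset.prod_empty, mul_one] at hB'
      have := Subtype.ext (hf hB')
      rw [← this]; exact hz
    · obtain ⟨r, hr⟩ := mon_range f w B hBe
      rw [← hr, ← map_mul] at hB'
      have h5 := hf hB'
      have hrS : r ∈ S := by rw [hS]; trivial
      have h6 : z * ⟨r, hrS⟩ = (prt k).eval v := Subtype.ext h5
      rw [← h6]
      exact I.mul_mem_right _ _ hz
  · intro h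
    have := h x
    rw [eval_prt] at this
    exact hne this

lemma gen_of_crit {R : Type u} [NonUnitalCommRing R] [Finite R] (h2 : ∀ x : R, x + x = 0)
    (hsq : ∀ x : R, x * x = 0) (h : IsCritical R) :
    ∃ (k : ℕ) (x : ℕ → R), NonUnitalSubring.closure (x '' {i | i ≤ k}) = ⊤ ∧ pr x k ≠ 0 := by
  classical
  obtain ⟨s, t, h1, h3⟩ := h
  obtain ⟨U, _, f, hf⟩ := exists_embedding R
  have hnz : ∃ y : ℕ → R, mon f y (Finset.range 1) ≠ 0 := by
    unfold Holds at h3
    push Not at h3
    obtain ⟨v, hv⟩ := h3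
    refine ⟨fun _ => s.eval v - t.eval v, ?_⟩
    rw [mon, Finset.prod_range_one]
    intro h
    exact hv (sub_eq_zero.1 (hf (h.trans (map_zero f).symm)))
  have hex : ∃ K, ∀ y : ℕ → R, mon f y (Finset.range (K + 1)) = 0 := by
    have := Fintype.ofFinite R
    refine ⟨Fintype.card R, fun y => ?_⟩
    obtain ⟨i, hi, j, hj, hij, hyij⟩ := Finset.exists_ne_map_eq_of_card_lt_of_maps_to
      (s := Finset.range (Fintype.card R + 1)) (t := (Finset.univ : Finset R)) (by simp)
      (f := y) (fun _ _ => Finset.mem_univ _)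
    have hsub : ({i, j} : Finset ℕ) ⊆ Finset.range (Fintype.card R + 1) := by
      intro l hl
      rw [Finset.mem_insert, Finset.mem_singleton] at hl
      rcases hl with rfl | rfl <;> assumption
    by_contra hcon
    apply mon_sub f y _ _ hsub hcon
    rw [mon, Finset.prod_pair hij, hyij, ← map_mul, hsq, map_zero]
  obtain ⟨K, hK, hKmin⟩ : ∃ K, (∀ y : ℕ → R, mon f y (Finset.range (K + 1)) = 0) ∧
      ∀ j < K, ¬ ∀ y : ℕ → R, mon f y (Finset.range (j + 1)) = 0 :=
    ⟨Nat.find hex, Nat.find_spec hex, fun j hj => Nat.find_min hex hj⟩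
  rcases K with _ | c
  · obtain ⟨y, hy⟩ := hnz
    exact absurd (hK y) hy
  have h4 := hKmin c (Nat.lt_succ_self c)
  push Not at h4
  obtain ⟨y, hy⟩ := h4
  refine ⟨c, y, ?_, ?_⟩
  · set S := NonUnitalSubring.closure (y '' {i | i ≤ c}) with hSdef
    by_contra hS
    have hE : IsEmpty ((⊥ : TwoSidedIdeal S).ringCon.Quotient ≃+* R) := by
      refine ⟨fun e => hS ?_⟩
      have e1 := RingEquiv.ofBijective (qmap (⊥ : TwoSidedIdeal S)) ⟨qmap_bot_inj, qmap_surj _⟩
      have h5 : Function.Injective (fun r : R => ((e1.symm (e.symm r) : S) : R)) :=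
        Subtype.val_injective.comp (e1.symm.injective.comp e.symm.injective)
      have h6 := Finite.surjective_of_injective h5
      rw [eq_top_iff]
      intro r _
      obtain ⟨r', hr'⟩ := h6 r
      rw [← hr']
      exact (e1.symm (e.symm r')).2
    have hH := (holds_quot _ _ _).1 (h1 S ⊥ hE)
    apply h3
    have hg : MvPolynomial.constantCoeff (poly s - poly t) = 0 := by
      rw [map_sub, poly_coeff, poly_coeff, sub_zero]
    have hsub : ∀ w : ℕ → R, MvPolynomial.eval₂ (Int.castRingHom U) (fun n => f (w n))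
        (poly s - poly t) = f (s.eval w - t.eval w) := by
      intro w
      have := (MvPolynomial.eval₂Hom (Int.castRingHom U) (fun n => f (w n))).map_sub
        (poly s) (poly t)
      simp only [MvPolynomial.coe_eval₂Hom] at this
      rw [this, map_sub, poly_eval, poly_eval]
    have hev := even_coeff f h2 hsq (poly s - poly t) hg c y hy (by
      intro w hw
      rw [hsub w]
      have hwS : ∀ i, w i ∈ S := by
        intro i
        rcases hw i with h | ⟨j, hj, h⟩
        · rw [h]; exact S.zero_mem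
        · rw [h]
          exact NonUnitalSubring.subset_closure ⟨j, Nat.le_of_lt_succ hj, rfl⟩
      have h7 := hH (fun i => ⟨w i, hwS i⟩)
      rw [TwoSidedIdeal.mem_bot] at h7
      have h8 := congrArg (Subtype.val) (sub_eq_zero.1 h7)
      rw [coe_eval_sub, coe_eval_sub] at h8
      rw [sub_eq_zero.2 h8, map_zero])
    intro v
    have h9 := vanish f h2 hsq (poly s - poly t) hg c hK
      (fun m hm hm1 => hev _ m rfl hm hm1) v
    rw [hsub v] at h9
    exact sub_eq_zero.1 (hf (h9.trans (map_zero f).symm))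
  · intro h
    apply hy
    have := map_pr f y c
    rw [h, map_zero] at this
    exact this.symm

/-! ### Uniqueness and existence -/

lemma card_eq {R : Type u} [NonUnitalCommRing R] (h2 : ∀ x : R, x + x = 0)
    (hsq : ∀ x : R, x * x = 0) (x : ℕ → R) (k : ℕ)
    (hx : NonUnitalSubring.closure (x '' {i | i ≤ k}) = ⊤) (hne : pr x k ≠ 0) :
    Finite R ∧ Nat.card R = 2 ^ (2 ^ (k + 1) - 1) := by
  classical
  obtain ⟨U, _, f, hf⟩ := exists_embedding R
  have hmon : mon f x (Finset.range (k + 1)) ≠ 0 := by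
    intro h
    apply hne
    apply hf
    rw [map_pr, map_zero]
    exact h
  have hin : ∀ a : {A // A ∈ PP k} → ZMod 2, ∃ r : R, f r = Phi f x k (ext0 k a) := by
    intro a
    obtain ⟨r, -, hr'⟩ := Phi_mem f x k (ext0 k a)
    exact ⟨r, hr'⟩
  choose ψ hψ using hin
  have hψi : Function.Injective ψ := by
    intro a b h
    funext A
    have h1 := inj f h2 hsq x k hmon (ext0 k a) (ext0 k b) (by rw [← hψ, ← hψ, h]) A A.2
    rwa [ext0_apply, ext0_apply] at h1
  have hψs : Function.Surjective ψ := by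
    intro r
    obtain ⟨a, ha⟩ := surj f h2 hsq x k hx r
    refine ⟨fun A => a A, hf ?_⟩
    rw [hψ, Phi_ext0, ha]
  have e := Equiv.ofBijective ψ ⟨hψi, hψs⟩
  refine ⟨Finite.of_equiv _ e, ?_⟩
  rw [← Nat.card_congr e, Nat.card_fun, Nat.card_zmod, Nat.card_eq_fintype_card,
    Fintype.card_coe]
  congr 1
  rw [PP, Finset.card_erase_of_mem (by simp), Finset.card_powerset, Finset.card_range]

lemma closure_top {R : Type u} [NonUnitalRing R] (y : ℕ → R) (k : ℕ)
    (z : ℕ → NonUnitalSubring.closure (y '' {i | i ≤ k})) (hz : ∀ i ≤ k, ((z i : _) : R) = y i) :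
    NonUnitalSubring.closure (z '' {i | i ≤ k}) = ⊤ := by
  rw [eq_top_iff]
  rintro ⟨a, ha⟩ -
  induction ha using NonUnitalSubring.closure_induction with
  | mem x hx =>
    obtain ⟨i, hi, rfl⟩ := hx
    refine NonUnitalSubring.subset_closure ⟨i, hi, ?_⟩
    exact Subtype.ext (hz i hi)
  | zero => exact (NonUnitalSubring.closure _).zero_mem
  | add a b ha hb iha ihb => exact (NonUnitalSubring.closure _).add_mem iha ihb
  | neg a ha iha => exact (NonUnitalSubring.closure _).neg_mem iha
  | mul a b ha hb iha ihb => exact (NonUnitalSubring.closure _).mul_mem iha ihb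

lemma map_pr' {R : Type*} {R' : Type*} [NonUnitalRing R] [NonUnitalRing R'] (g : R →ₙ+* R')
    (y : ℕ → R) (k : ℕ) : g (pr y k) = pr (fun i => g (y i)) k := by
  induction k with
  | zero => rfl
  | succ k ih => rw [pr, map_mul, ih, pr]

lemma pr_congr {R : Type*} [NonUnitalRing R] (y z : ℕ → R) (k : ℕ) (h : ∀ i ≤ k, y i = z i) :
    pr y k = pr z k := by
  induction k with
  | zero => exact h 0 le_rfl
  | succ k ih => rw [pr, pr, ih (fun i hi => h i (by omega)), h (k + 1) le_rfl]

universe w

lemma unique {R : Type u} [NonUnitalCommRing R] {R' : Type w} [NonUnitalCommRing R']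
    (h2 : ∀ x : R, x + x = 0) (hsq : ∀ x : R, x * x = 0)
    (h2' : ∀ x : R', x + x = 0) (hsq' : ∀ x : R', x * x = 0) (k : ℕ) (x : ℕ → R)
    (hx : NonUnitalSubring.closure (x '' {i | i ≤ k}) = ⊤) (hne : pr x k ≠ 0) (x' : ℕ → R')
    (hx' : NonUnitalSubring.closure (x' '' {i | i ≤ k}) = ⊤) (hne' : pr x' k ≠ 0) :
    Nonempty (R ≃+* R') := by
  classical
  set y : ℕ → R × R' := fun i => (x i, x' i) with hy
  set G := NonUnitalSubring.closure (y '' {i | i ≤ k}) with hG
  set z : ℕ → G := fun i => if h : i ≤ k then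
    ⟨y i, NonUnitalSubring.subset_closure ⟨i, h, rfl⟩⟩ else 0 with hz
  have hzi : ∀ i ≤ k, ((z i : G) : R × R') = y i := by
    intro i hi
    simp only [hz, dif_pos hi]
  have hzt := closure_top y k z hzi
  let instG : NonUnitalCommRing G := { (inferInstance : NonUnitalRing G) with
    mul_comm := fun a b => Subtype.ext (mul_comm (a : R × R') b) }
  have hg2 : ∀ a : G, a + a = 0 := fun a => Subtype.ext (Prod.ext (h2 _) (h2' _))
  have hgsq : ∀ a : G, a * a = 0 := fun a => Subtype.ext (Prod.ext (hsq _) (hsq' _))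
  let p1 : G →ₙ+* R := (NonUnitalRingHom.fst R R').comp (NonUnitalSubringClass.subtype G)
  let p2 : G →ₙ+* R' := (NonUnitalRingHom.snd R R').comp (NonUnitalSubringClass.subtype G)
  have hp1 : ∀ i ≤ k, p1 (z i) = x i := by
    intro i hi
    show ((z i : G) : R × R').1 = x i
    rw [hzi i hi]
  have hp2 : ∀ i ≤ k, p2 (z i) = x' i := by
    intro i hi
    show ((z i : G) : R × R').2 = x' i
    rw [hzi i hi]
  have hgne : pr z k ≠ 0 := by
    intro h
    apply hne
    have := map_pr' p1 z k
    rw [h, map_zero, pr_congr _ x k hp1] at this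
    exact this.symm
  obtain ⟨hfin, hcard⟩ := card_eq hg2 hgsq z k hzt hgne
  obtain ⟨hfin1, hcard1⟩ := card_eq h2 hsq x k hx hne
  obtain ⟨hfin2, hcard2⟩ := card_eq h2' hsq' x' k hx' hne'
  have hs1 : Function.Surjective p1 := by
    rw [← NonUnitalRingHom.range_eq_top, eq_top_iff, ← hx, NonUnitalSubring.closure_le]
    rintro _ ⟨i, hi, rfl⟩
    exact ⟨z i, hp1 i hi⟩
  have hs2 : Function.Surjective p2 := by
    rw [← NonUnitalRingHom.range_eq_top, eq_top_iff, ← hx', NonUnitalSubring.closure_le]
    rintro _ ⟨i, hi, rfl⟩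
    exact ⟨z i, hp2 i hi⟩
  have hb1 : Function.Bijective p1 := (Nat.bijective_iff_surjective_and_card p1).2
    ⟨hs1, by rw [hcard, hcard1]⟩
  have hb2 : Function.Bijective p2 := (Nat.bijective_iff_surjective_and_card p2).2
    ⟨hs2, by rw [hcard, hcard2]⟩
  exact ⟨(RingEquiv.ofBijective p1 hb1).symm.trans (RingEquiv.ofBijective p2 hb2)⟩

/-- The ring `𝔽₂[x 0, x 1, …] / (x 0 ^ 2, x 1 ^ 2, …)`. -/
abbrev Poly2 : Type :=
  MvPolynomial ℕ (ZMod 2) ⧸ Ideal.span (Set.range fun i : ℕ =>
    (MvPolynomial.X i ^ 2 : MvPolynomial ℕ (ZMod 2)))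

/-- The ring (without identity) of the elements of `𝔽₂[x 0, …, x k] / (x 0 ^ 2, …, x k ^ 2)`
without constant term: the subring generated by `x 0, …, x k`. -/
noncomputable def Nk (k : ℕ) : NonUnitalSubring Poly2 :=
  NonUnitalSubring.closure ((fun i : ℕ => (Ideal.Quotient.mk _ (MvPolynomial.X i) : Poly2)) ''
    {i | i ≤ k})

lemma Nk_facts (k : ℕ) : (∀ a : Nk k, a + a = 0) ∧ (∀ a : Nk k, a * a = 0) ∧
    ∃ x : ℕ → Nk k, NonUnitalSubring.closure (x '' {i | i ≤ k}) = ⊤ ∧ pr x k ≠ 0 := by
  classical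
  have h2 : ∀ a : Poly2, a + a = 0 := by
    intro a
    obtain ⟨p, rfl⟩ := Ideal.Quotient.mk_surjective a
    rw [← map_add, CharTwo.add_self_eq_zero, map_zero]
  set y : ℕ → Poly2 := fun i => Ideal.Quotient.mk _ (MvPolynomial.X i) with hy
  refine ⟨fun a => Subtype.ext (h2 _), fun a => Subtype.ext ?_, ?_⟩
  · show (a : Poly2) * a = 0
    obtain ⟨a, ha⟩ := a
    show a * a = 0
    unfold Nk at ha
    induction ha using NonUnitalSubring.closure_induction with
    | mem x hx =>
      obtain ⟨i, hi, rfl⟩ := hx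
      show (Ideal.Quotient.mk _ (MvPolynomial.X i) : Poly2) * Ideal.Quotient.mk _ _ = 0
      rw [← map_mul, ← pow_two]
      exact Ideal.Quotient.eq_zero_iff_mem.2 (Ideal.subset_span ⟨i, rfl⟩)
    | zero => simp
    | add a b _ _ iha ihb =>
      have h9 := h2 (a * b)
      linear_combination iha + ihb + h9
    | neg a _ iha => linear_combination iha
    | mul a b _ _ iha ihb =>
      calc (a * b) * (a * b) = (a * a) * (b * b) := by ring
        _ = 0 := by rw [iha, zero_mul]
  · set z : ℕ → Nk k := fun i => if h : i ≤ k then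
      ⟨y i, NonUnitalSubring.subset_closure ⟨i, h, rfl⟩⟩ else 0 with hz
    have hzi : ∀ i ≤ k, ((z i : Nk k) : Poly2) = y i := by
      intro i hi
      simp only [hz, dif_pos hi]
    refine ⟨z, closure_top y k z hzi, ?_⟩
    intro h
    have h0 := map_pr' (NonUnitalSubringClass.subtype (Nk k)) z k
    rw [h, map_zero] at h0
    have h1 : (0 : Poly2) = pr y k := by
      rw [← pr_congr (fun i => ((z i : Nk k) : Poly2)) y k hzi]
      exact h0
    have h3 : ∀ k : ℕ, pr y k = Ideal.Quotient.mk _ (∏ i ∈ Finset.range (k + 1),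
        MvPolynomial.X i) := by
      intro k
      induction k with
      | zero => simp [pr, hy]
      | succ k ih => rw [pr, ih, hy, ← map_mul, ← Finset.prod_range_succ]
    rw [h3] at h1
    have h4 := Ideal.Quotient.eq_zero_iff_mem.1 h1.symm
    have h5 : (Set.range fun i : ℕ => (MvPolynomial.X i ^ 2 : MvPolynomial ℕ (ZMod 2))) =
        (fun m => MvPolynomial.monomial m (1 : ZMod 2)) ''
          (Set.range fun i : ℕ => Finsupp.single i 2) := by
      rw [← Set.range_comp]
      congr 1
      funext i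
      simp [MvPolynomial.X_pow_eq_monomial]
    have h6 : (∏ i ∈ Finset.range (k + 1), (MvPolynomial.X i : MvPolynomial ℕ (ZMod 2))) =
        MvPolynomial.monomial (∑ i ∈ Finset.range (k + 1), Finsupp.single i 1) 1 := by
      rw [MvPolynomial.monomial_sum_one]
      rfl
    rw [h5, MvPolynomial.mem_ideal_span_monomial_image, h6] at h4
    obtain ⟨m, ⟨i, rfl⟩, hm⟩ := h4 (∑ i ∈ Finset.range (k + 1), Finsupp.single i 1) (by
      rw [MvPolynomial.mem_support_iff, MvPolynomial.coeff_monomial]
      simp)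
    have h7 := hm i
    rw [Finsupp.single_eq_same, Finsupp.finsetSum_apply] at h7
    have h8 : ∑ j ∈ Finset.range (k + 1), (Finsupp.single j 1 : ℕ →₀ ℕ) i ≤ 1 := by
      calc _ = ∑ j ∈ Finset.range (k + 1), if j = i then 1 else 0 := by
            refine Finset.sum_congr rfl (fun j _ => ?_)
            rw [Finsupp.single_apply]
        _ ≤ 1 := by
            rw [Finset.sum_ite_eq']
            split_ifs <;> simp
    omega

/-- **The critical rings of characteristic two with `x ^ 2 = 0`.**  A finite associative ring `R`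
(not assumed commutative, without identity) with `2 x = 0` and `x ^ 2 = 0` for all `x` is critical
if and only if it is isomorphic to the ring `Nk k` for some `k`.  The rings `Nk k` have these
properties and `2 ^ (2 ^ (k + 1) - 1)` elements (so they are pairwise not isomorphic). -/
theorem result :
    (∀ (R : Type u) [NonUnitalRing R] [Finite R], (∀ x : R, x + x = 0) → (∀ x : R, x * x = 0) →
      (IsCritical R ↔ ∃ k : ℕ, Nonempty (R ≃+* Nk k))) ∧
    ∀ k : ℕ, (∀ x : Nk k, x + x = 0) ∧ (∀ x : Nk k, x * x = 0) ∧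
      Nat.card (Nk k) = 2 ^ (2 ^ (k + 1) - 1) := by
  constructor
  · intro R _ _ h2 hsq
    have hcomm : ∀ a b : R, a * b = b * a := by
      intro a b
      have h := hsq (a + b)
      rw [add_mul, mul_add, mul_add, hsq, hsq, zero_add, add_zero] at h
      have h3 : -(b * a) = b * a := neg_eq_of_add_eq_zero_left (h2 (b * a))
      rw [← h3]
      exact eq_neg_of_add_eq_zero_left h
    let inst : NonUnitalCommRing R :=
      { (inferInstance : NonUnitalRing R) with mul_comm := hcomm }
    constructor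
    · intro h
      obtain ⟨k, x, hx, hne⟩ := gen_of_crit (R := R) h2 hsq h
      obtain ⟨h2', hsq', x', hx', hne'⟩ := Nk_facts k
      let instG : NonUnitalCommRing (Nk k) := { (inferInstance : NonUnitalRing (Nk k)) with
        mul_comm := fun a b => Subtype.ext (mul_comm (a : Poly2) b) }
      exact ⟨k, unique (R := R) (R' := Nk k) h2 hsq h2' hsq' k x hx hne x' hx' hne'⟩
    · rintro ⟨k, ⟨e⟩⟩
      obtain ⟨h2', hsq', x', hx', hne'⟩ := Nk_facts k
      refine crit_of_gen (R := R) h2 hsq (fun i => e.symm (x' i)) k ?_ ?_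
      · rw [eq_top_iff]
        intro r _
        have h5 : (⊤ : NonUnitalSubring (Nk k)) ≤ (NonUnitalSubring.closure
            ((fun i => e.symm (x' i)) '' {i | i ≤ k})).comap (e.symm : Nk k →ₙ+* R) := by
          rw [← hx', NonUnitalSubring.closure_le]
          rintro _ ⟨i, hi, rfl⟩
          exact NonUnitalSubring.subset_closure ⟨i, hi, rfl⟩
        have h6 : e.symm (e r) ∈ NonUnitalSubring.closure
            ((fun i => e.symm (x' i)) '' {i | i ≤ k}) := h5 (x := e r) trivial
        rwa [e.symm_apply_apply] at h6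
      · intro h
        apply hne'
        have := map_pr' (e.symm : Nk k →ₙ+* R) x' k
        have h7 : pr (fun i => (e.symm : Nk k →ₙ+* R) (x' i)) k = 0 := h
        rw [h7] at this
        have h8 : e.symm (pr x' k) = 0 := this
        exact (map_eq_zero_iff e.symm e.symm.injective).1 h8
  · intro k
    obtain ⟨h2', hsq', x', hx', hne'⟩ := Nk_facts k
    let instG : NonUnitalCommRing (Nk k) := { (inferInstance : NonUnitalRing (Nk k)) with
      mul_comm := fun a b => Subtype.ext (mul_comm (a : Poly2) b) }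
    exact ⟨h2', hsq', (card_eq (R := Nk k) h2' hsq' x' k hx' hne').2⟩

end Pool.Agent.Results.MP_1bb14d_al.SquareZeroCharTwo
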