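import Mathlib

/-!
# Critical rings with identity in the variety `x ^ 3 = x ^ n`
-/

set_option autoImplicit false

namespace Pool.Agent.Results.MP_1bb14d_al.UnitalCritical

/-- Terms in the language of rings without identity. -/
inductive Term : Type
  | var (n : ℕ) : Term
  | zero : Term
  | add (s t : Term) : Term
  | neg (s : Term) : Term
  | mul (s t : Term) : Term

/-- The value of a term. -/
def Term.eval {R : Type} [NonUnitalRing R] (ρ : ℕ → R) : Term → R
  | .var n => ρ n
  | .zero => 0
  | .add s t => s.eval ρ + t.eval ρ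
  | .neg s => - s.eval ρ
  | .mul s t => s.eval ρ * t.eval ρ

/-- The identity `s = t` holds in the ring `R`. -/
def Holds (R : Type) [NonUnitalRing R] (s t : Term) : Prop := ∀ ρ : ℕ → R, s.eval ρ = t.eval ρ

/-- `Q` is a factor of `R`: a homomorphic image of a subring of `R` (subrings and homomorphisms need
not respect identity elements). -/
def IsFactor (Q R : Type) [NonUnitalRing Q] [NonUnitalRing R] : Prop :=
  ∃ (S : NonUnitalSubring R) (f : S →ₙ+* Q), Function.Surjective f

/-- `R` is critical: it is finite and does not belong to the variety generated by its proper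
factors, that is, some identity holds in every factor of `R` not isomorphic to `R` but not in `R`. -/
def Critical (R : Type) [NonUnitalRing R] : Prop :=
  Finite R ∧ ∃ s t : Term,
    (∀ (Q : Type) [NonUnitalRing Q], IsFactor Q R → IsEmpty (Q ≃+* R) → Holds Q s t) ∧
      ¬ Holds R s t

section general

variable {R : Type} [Ring R]

/-- The corner of an idempotent. -/
def corner (e : R) : NonUnitalSubring R where
  carrier := {x | e * x = x}
  add_mem' := by
    intro a b ha hb
    simp only [Set.mem_ofPred_eq] at *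
    rw [mul_add, ha, hb]
  zero_mem' := by simp
  neg_mem' := by
    intro a ha
    simp only [Set.mem_ofPred_eq] at *
    rw [mul_neg, ha]
  mul_mem' := by
    intro a b ha _
    simp only [Set.mem_ofPred_eq] at *
    rw [← mul_assoc, ha]

theorem mem_corner (e x : R) : x ∈ corner e ↔ e * x = x := Iff.rfl

theorem eval_corner (e : R) (he : e * e = e) (hc : ∀ x : R, e * x = x * e) (ρ : ℕ → R)
    (t : Term) :
    ((t.eval (fun n => (⟨e * ρ n, by rw [mem_corner, ← mul_assoc, he]⟩ : corner e)) :
      corner e) : R) = e * t.eval ρ := by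
  induction t with
  | var n => rfl
  | zero => simp [Term.eval]
  | add s t hs ht => exact (congrArg₂ (fun a b : R => a + b) hs ht).trans (mul_add _ _ _).symm
  | neg s hs => exact (congrArg (fun a : R => -a) hs).trans (mul_neg _ _).symm
  | mul s t hs ht =>
    refine (congrArg₂ (fun a b : R => a * b) hs ht).trans ?_
    change e * s.eval ρ * (e * t.eval ρ) = e * (s.eval ρ * t.eval ρ)
    calc e * s.eval ρ * (e * t.eval ρ) = e * (s.eval ρ * e) * t.eval ρ := by noncomm_ring
      _ = e * (e * s.eval ρ) * t.eval ρ := by rw [← hc (s.eval ρ)]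
      _ = (e * e) * (s.eval ρ * t.eval ρ) := by noncomm_ring
      _ = e * (s.eval ρ * t.eval ρ) := by rw [he]

theorem corner_proper [Finite R] (e : R) (h : e ≠ 1) : IsEmpty (corner e ≃+* R) := by
  constructor
  intro f
  have h1 : Function.Injective (fun x : corner e => (x : R)) := Subtype.val_injective
  have h2 : Function.Surjective (fun x : corner e => (x : R)) := by
    have h3 : Function.Injective (fun x : R => ((f.symm x : corner e) : R)) :=
      Subtype.val_injective.comp f.symm.injective
    have h4 := Finite.injective_iff_surjective.1 h3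
    intro y
    obtain ⟨x, hx⟩ := h4 y
    exact ⟨f.symm x, hx⟩
  obtain ⟨x, hx⟩ := h2 1
  have h5 : e * 1 = 1 := by
    rw [← hx]
    exact x.2
  exact h (by rwa [mul_one] at h5)

theorem corner_factor (e : R) : IsFactor (corner e) R :=
  ⟨corner e, NonUnitalRingHom.id _, Function.surjective_id⟩

/-- A central idempotent of a critical ring is trivial. -/
theorem idem_trivial (hR : Critical R) (e : R) (he : e * e = e) (hc : ∀ x : R, e * x = x * e) :
    e = 0 ∨ e = 1 := by
  obtain ⟨hfin, s, t, h, hn⟩ := hR
  by_contra hcon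
  push Not at hcon
  apply hn
  intro ρ
  have he' : (1 - e) * (1 - e) = 1 - e := by
    calc (1 - e) * (1 - e) = 1 - e - e + e * e := by noncomm_ring
      _ = 1 - e := by rw [he]; abel
  have hc' : ∀ x : R, (1 - e) * x = x * (1 - e) := by
    intro x
    rw [sub_mul, mul_sub, one_mul, mul_one, hc]
  have h1 := h (corner e) (corner_factor e) (corner_proper e hcon.2)
  have h2 := h (corner (1 - e)) (corner_factor (1 - e)) (corner_proper (1 - e) (by
    intro h
    exact hcon.1 (by simpa using h)))
  have h3 := congrArg Subtype.val (h1 (fun n => ⟨e * ρ n, by rw [mem_corner, ← mul_assoc, he]⟩))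
  have h4 := congrArg Subtype.val (h2 (fun n => ⟨(1 - e) * ρ n, by
    rw [mem_corner, ← mul_assoc, he']⟩))
  rw [eval_corner e he hc, eval_corner e he hc] at h3
  rw [eval_corner (1 - e) he' hc', eval_corner (1 - e) he' hc'] at h4
  calc s.eval ρ = e * s.eval ρ + (1 - e) * s.eval ρ := by noncomm_ring
    _ = e * t.eval ρ + (1 - e) * t.eval ρ := by rw [h3, h4]
    _ = t.eval ρ := by noncomm_ring

theorem one_add_pow_of_sq (x : R) (h : x * x = 0) (j : ℕ) : (1 + x) ^ j = 1 + j • x := by
  induction j with
  | zero => simp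
  | succ j ih =>
    rw [pow_succ, ih, succ_nsmul]
    have : (j • x) * x = 0 := by rw [smul_mul_assoc, h, smul_zero]
    calc (1 + j • x) * (1 + x) = 1 + x + j • x + (j • x) * x := by noncomm_ring
      _ = 1 + (j • x + x) := by rw [this]; abel

/-- In the situation of the theorem the ring is reduced. -/
theorem reduced (m : ℕ) (hm : (ringChar R).Coprime m) (hx : ∀ x : R, x ^ 3 = x ^ (m + 3))
    (x : R) (h : x * x = 0) : x = 0 := by
  have h1 := hx (1 + x)
  rw [one_add_pow_of_sq x h, one_add_pow_of_sq x h, add_smul] at h1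
  have h2 : m • x = 0 := by
    have h1' := add_left_cancel h1
    have : 0 + 3 • x = m • x + 3 • x := by rw [zero_add]; exact h1'
    exact (add_right_cancel this).symm
  have h3 : ringChar R • x = 0 := by
    rw [nsmul_eq_mul, ringChar.Nat.cast_ringChar, zero_mul]
  have h4 : addOrderOf x ∣ 1 := by
    rw [← Nat.Coprime.gcd_eq_one hm]
    exact Nat.dvd_gcd (addOrderOf_dvd_of_nsmul_eq_zero h3) (addOrderOf_dvd_of_nsmul_eq_zero h2)
  have h5 := addOrderOf_dvd_iff_nsmul_eq_zero.1 h4
  simpa using h5

theorem pow_eq (m : ℕ) (hm : (ringChar R).Coprime m) (hx : ∀ x : R, x ^ 3 = x ^ (m + 3)) (x : R) :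
    x ^ (m + 1) = x := by
  have hred := reduced m hm hx
  have hcomm : Commute x (1 - x ^ m) := (Commute.one_right x).sub_right (Commute.pow_right rfl m)
  have h0 : x ^ 3 * (1 - x ^ m) = 0 := by
    rw [mul_sub, mul_one, ← pow_add, add_comm 3 m, ← hx x, sub_self]
  have h1 : (x * (1 - x ^ m)) ^ 3 = 0 := by
    rw [hcomm.mul_pow, pow_succ' (1 - x ^ m) 2, ← mul_assoc, h0, zero_mul]
  set y := x * (1 - x ^ m) with hy
  have h2 : (y * y) * (y * y) = 0 := by
    calc (y * y) * (y * y) = y ^ 3 * y := by rw [pow_succ, pow_two]; noncomm_ring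
      _ = 0 := by rw [h1, zero_mul]
  have h3 : y = 0 := hred y (hred _ h2)
  rw [hy, mul_sub, mul_one, sub_eq_zero] at h3
  rw [pow_succ']
  exact h3.symm

theorem central_of_idem (hred : ∀ x : R, x * x = 0 → x = 0) (e : R) (he : e * e = e) (r : R) :
    e * r = r * e := by
  have h1 : e * r * (1 - e) = 0 := by
    apply hred
    calc e * r * (1 - e) * (e * r * (1 - e)) = e * r * ((1 - e) * e) * r * (1 - e) := by
          noncomm_ring
      _ = 0 := by
          have : (1 - e) * e = 0 := by rw [sub_mul, one_mul, he, sub_self]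
          rw [this]; simp
  have h2 : (1 - e) * r * e = 0 := by
    apply hred
    calc (1 - e) * r * e * ((1 - e) * r * e) = (1 - e) * r * (e * (1 - e)) * r * e := by
          noncomm_ring
      _ = 0 := by
          have : e * (1 - e) = 0 := by rw [mul_sub, mul_one, he, sub_self]
          rw [this]; simp
  have h3 : e * r = e * r * e := by
    have : e * r * (1 - e) = e * r - e * r * e := by noncomm_ring
    rw [this, sub_eq_zero] at h1
    exact h1
  have h4 : r * e = e * r * e := by
    have : (1 - e) * r * e = r * e - e * r * e := by noncomm_ring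
    rw [this, sub_eq_zero] at h2
    exact h2
  rw [h3, h4]

/-- The main implication. -/
theorem field_of_critical (m : ℕ) (hm1 : 1 ≤ m) (hm : (ringChar R).Coprime m)
    (hx : ∀ x : R, x ^ 3 = x ^ (m + 3)) (hR : Critical R) :
    IsField R ∧ ∀ x : R, x ≠ 0 → x ^ m = 1 := by
  have hred := reduced m hm hx
  have hp := pow_eq m hm hx
  have hid : ∀ x : R, x ^ m * x ^ m = x ^ m := by
    intro x
    obtain ⟨k, rfl⟩ := Nat.exists_eq_add_of_le hm1
    calc x ^ (1 + k) * x ^ (1 + k) = x ^ k * x ^ (1 + k + 1) := by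
          rw [← pow_add, ← pow_add]; congr 1; omega
      _ = x ^ (1 + k) := by rw [hp, ← pow_succ, add_comm]
  have hpow : ∀ x : R, x ≠ 0 → x ^ m = 1 := by
    intro x hx0
    rcases idem_trivial hR (x ^ m) (hid x) (central_of_idem hred _ (hid x)) with h | h
    · exfalso
      apply hx0
      rw [← hp x, pow_succ, h, zero_mul]
    · exact h
  have hnt : Nontrivial R := by
    by_contra hnt
    rw [not_nontrivial_iff_subsingleton] at hnt
    obtain ⟨-, s, t, -, h⟩ := hR
    exact h (fun ρ => Subsingleton.elim _ _)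
  have hfin : Finite R := hR.1
  have hnz : NoZeroDivisors R := by
    constructor
    intro a b hab
    by_cases ha : a = 0
    · exact Or.inl ha
    · right
      have h1 := hpow a ha
      obtain ⟨k, rfl⟩ := Nat.exists_eq_add_of_le hm1
      calc b = a ^ (1 + k) * b := by rw [h1, one_mul]
        _ = a ^ k * (a * b) := by rw [add_comm, pow_succ, mul_assoc]
        _ = 0 := by rw [hab, mul_zero]
  have hdom : IsDomain R := NoZeroDivisors.to_isDomain R
  exact ⟨Finite.isDomain_to_isField R, hpow⟩

end general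

section field

/-- The term `x ^ (j + 1)`. -/
def powT : ℕ → Term
  | 0 => .var 0
  | j + 1 => .mul (powT j) (.var 0)

/-- The term `x (x ^ 2 - x) (x ^ 3 - x) ⋯ (x ^ (j + 1) - x)`. -/
def prodT : ℕ → Term
  | 0 => .var 0
  | j + 1 => .mul (prodT j) (.add (powT (j + 1)) (.neg (.var 0)))

theorem eval_powT {R : Type} [Ring R] (ρ : ℕ → R) (j : ℕ) : (powT j).eval ρ = ρ 0 ^ (j + 1) := by
  induction j with
  | zero => rw [zero_add, pow_one]; rfl
  | succ j ih =>
    change (powT j).eval ρ * ρ 0 = _
    rw [ih, ← pow_succ]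

theorem eval_prodT_succ {R : Type} [Ring R] (ρ : ℕ → R) (j : ℕ) :
    (prodT (j + 1)).eval ρ = (prodT j).eval ρ * (ρ 0 ^ (j + 2) - ρ 0) := by
  change (prodT j).eval ρ * ((powT (j + 1)).eval ρ + - ρ 0) = _
  rw [eval_powT, ← sub_eq_add_neg]

theorem eval_map {R Q : Type} [NonUnitalRing R] [NonUnitalRing Q] (f : R →ₙ+* Q) (ρ : ℕ → R)
    (t : Term) : f (t.eval ρ) = t.eval (fun n => f (ρ n)) := by
  induction t with
  | var n => rfl
  | zero => exact map_zero f
  | add s t hs ht => exact (map_add f _ _).trans (congrArg₂ (fun a b => a + b) hs ht)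
  | neg s hs => exact (map_neg f _).trans (congrArg (fun a => -a) hs)
  | mul s t hs ht => exact (map_mul f _ _).trans (congrArg₂ (fun a b => a * b) hs ht)

theorem prodT_ne {K : Type} [Field K] (ρ : ℕ → K) (k : ℕ) :
    (prodT k).eval ρ ≠ 0 ↔ ρ 0 ≠ 0 ∧ ∀ j < k, ρ 0 ^ (j + 2) ≠ ρ 0 := by
  induction k with
  | zero =>
    constructor
    · exact fun h => ⟨h, fun j hj => absurd hj (Nat.not_lt_zero j)⟩
    · exact fun h => h.1
  | succ k ih =>
    rw [eval_prodT_succ, mul_ne_zero_iff, ih, sub_ne_zero]
    constructor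
    · rintro ⟨⟨h1, h2⟩, h3⟩
      refine ⟨h1, fun j hj => ?_⟩
      rcases Nat.lt_succ_iff_lt_or_eq.1 hj with h | rfl
      · exact h2 j h
      · exact h3
    · rintro ⟨h1, h2⟩
      exact ⟨⟨h1, fun j hj => h2 j (Nat.lt_succ_of_lt hj)⟩, h2 k (Nat.lt_succ_self k)⟩

theorem exists_pow {K : Type} [Field K] [Fintype K] (s : K) (hs : s ≠ 0)
    (h : ∀ j < Fintype.card K - 2, s ^ (j + 2) ≠ s) (a : K) : a = 0 ∨ ∃ i : ℕ, a = s ^ (i + 1) := by
  classical
  have hq : 1 < Fintype.card K := Fintype.one_lt_card
  let φ : Fin (Fintype.card K) → K := fun i => if i.1 = 0 then 0 else s ^ i.1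
  have hlt : ∀ i j : Fin (Fintype.card K), i.1 ≠ 0 → i.1 < j.1 → s ^ i.1 ≠ s ^ j.1 := by
    intro i j hi hij heq
    have h1 : s ^ i.1 * s ^ (j.1 - i.1) = s ^ i.1 * 1 := by
      rw [← pow_add, mul_one, Nat.add_sub_cancel' hij.le, heq]
    have h2 : s ^ (j.1 - i.1) = 1 := mul_left_cancel₀ (pow_ne_zero _ hs) h1
    have hj := j.2
    refine h (j.1 - i.1 - 1) (by omega) ?_
    have h3 : j.1 - i.1 - 1 + 2 = (j.1 - i.1) + 1 := by omega
    rw [h3, pow_succ, h2, one_mul]
  have hinj : Function.Injective φ := by
    intro i j hij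
    simp only [φ] at hij
    apply Fin.ext
    split_ifs at hij with h1 h2 h2
    · rw [h1, h2]
    · exact absurd hij.symm (pow_ne_zero _ hs)
    · exact absurd hij (pow_ne_zero _ hs)
    · rcases Nat.lt_trichotomy i.1 j.1 with h3 | h3 | h3
      · exact absurd hij (hlt i j h1 h3)
      · exact h3
      · exact absurd hij.symm (hlt j i h2 h3)
  have hbij : Function.Bijective φ := by
    rw [Fintype.bijective_iff_injective_and_card]
    exact ⟨hinj, by simp⟩
  obtain ⟨i, hi⟩ := hbij.2 a
  simp only [φ] at hi
  split_ifs at hi with h1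
  · exact Or.inl hi.symm
  · right
    refine ⟨i.1 - 1, ?_⟩
    rw [Nat.sub_add_cancel (Nat.pos_of_ne_zero h1)]
    exact hi.symm

theorem factor_holds {K : Type} [Field K] [Fintype K] (Q : Type) [NonUnitalRing Q]
    (hQ : IsFactor Q K) (hne : IsEmpty (Q ≃+* K)) :
    Holds Q (prodT (Fintype.card K - 2)) .zero := by
  obtain ⟨S, f, hf⟩ := hQ
  intro ρ
  change _ = (0 : Q)
  choose ρ' hρ' using fun n => hf (ρ n)
  have h1 : ρ = fun n => f (ρ' n) := funext fun n => (hρ' n).symm
  rw [h1, ← eval_map]
  have h2 := eval_map (NonUnitalSubringClass.subtype S) ρ' (prodT (Fintype.card K - 2))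
  by_cases h0 : (prodT (Fintype.card K - 2)).eval (fun n => (ρ' n : K)) = 0
  · have h3 : (prodT (Fintype.card K - 2)).eval ρ' = 0 := by
      apply Subtype.ext
      exact h2.trans h0
    rw [h3, map_zero]
  · obtain ⟨hs, hs'⟩ := (prodT_ne _ _).1 h0
    have hpowS : ∀ i : ℕ, (ρ' 0 : K) ^ (i + 1) ∈ S := by
      intro i
      induction i with
      | zero => rw [zero_add, pow_one]; exact (ρ' 0).2
      | succ i ih => rw [pow_succ]; exact S.mul_mem ih (ρ' 0).2
    have hS : ∀ a : K, a ∈ S := by
      intro a
      rcases exists_pow _ hs hs' a with rfl | ⟨i, rfl⟩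
      · exact S.zero_mem
      · exact hpowS i
    have hni : ¬ Function.Injective f := by
      intro hinj
      let e1 : S ≃+* Q := RingEquiv.ofBijective f ⟨hinj, hf⟩
      let e2 : S ≃+* K := RingEquiv.ofBijective (NonUnitalSubringClass.subtype S)
        ⟨Subtype.val_injective, fun a => ⟨⟨a, hS a⟩, rfl⟩⟩
      exact hne.false (e1.symm.trans e2)
    rw [injective_iff_map_eq_zero] at hni
    push Not at hni
    obtain ⟨a, ha, ha0⟩ := hni
    have ha1 : (a : K) ≠ 0 := fun h => ha0 (Subtype.ext h)
    have hzero : ∀ b : S, f b = 0 := by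
      intro b
      have h3 : b = a * ⟨(a : K)⁻¹ * b, hS _⟩ := by
        apply Subtype.ext
        change (b : K) = a * ((a : K)⁻¹ * b)
        rw [mul_inv_cancel_left₀ ha1]
      rw [h3, map_mul, ha, zero_mul]
    exact hzero _

theorem critical_of_field (K : Type) [Field K] [Finite K] : Critical K := by
  have := Fintype.ofFinite K
  refine ⟨inferInstance, prodT (Fintype.card K - 2), .zero,
    fun Q _ hQ hne => factor_holds Q hQ hne, ?_⟩
  intro h
  obtain ⟨g, hg⟩ := IsCyclic.exists_generator (α := Kˣ)
  have hord : orderOf g = Fintype.card K - 1 := by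
    classical
    rw [orderOf_eq_card_of_forall_mem_zpowers hg, Nat.card_eq_fintype_card, Fintype.card_units]
  have hq : 1 < Fintype.card K := Fintype.one_lt_card
  refine (prodT_ne (fun _ => (g : K)) (Fintype.card K - 2)).2 ⟨g.ne_zero, ?_⟩
    (h (fun _ => (g : K)))
  intro j hj heq
  have h1 : (g : K) ^ (j + 1) = 1 := by
    have h2 : (g : K) * (g : K) ^ (j + 1) = (g : K) * 1 := by
      rw [← pow_succ', mul_one]
      exact heq
    exact mul_left_cancel₀ g.ne_zero h2
  have h3 : g ^ (j + 1) = 1 := by
    apply Units.ext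
    push_cast
    exact h1
  have h4 := Nat.le_of_dvd (Nat.succ_pos j) (orderOf_dvd_of_pow_eq_one h3)
  omega

end field

/-- The case of a ring with identity. Suppose that `n` is even, or that the
characteristic of `R` is coprime to `n - 3`. Then `R` is critical and satisfies `x ^ 3 = x ^ n` if
and only if `R` is a finite field and `|R| - 1` divides `n - 3`. -/
theorem unital_iff (n : ℕ) (hn : 4 ≤ n) (R : Type) [Ring R]
    (hc : Even n ∨ (ringChar R).Coprime (n - 3)) :
    (Critical R ∧ ∀ x : R, x ^ 3 = x ^ n) ↔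
      (Finite R ∧ IsField R ∧ (Nat.card R - 1) ∣ n - 3) := by
  obtain ⟨m, rfl⟩ : ∃ m, n = m + 3 := ⟨n - 3, by omega⟩
  have hm1 : 1 ≤ m := by omega
  rw [Nat.add_sub_cancel] at hc ⊢
  constructor
  · rintro ⟨hR, hx⟩
    have hm : (ringChar R).Coprime m := by
      rcases hc with hc | hc
      · have h1 := hx (-1)
        rw [hc.neg_one_pow] at h1
        have h2 : ((2 : ℕ) : R) = 0 := by
          have h3 : (-1 : R) = 1 :=
            (Odd.neg_one_pow (⟨1, by norm_num⟩ : Odd 3)).symm.trans h1
          calc ((2 : ℕ) : R) = 1 + 1 := by norm_num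
            _ = -1 + 1 := by rw [h3]
            _ = 0 := by simp
        have h4 : Odd m := by
          by_contra h5
          rw [Nat.not_odd_iff_even] at h5
          rcases hc with ⟨a, ha⟩
          rcases h5 with ⟨b, hb⟩
          omega
        exact Nat.Coprime.coprime_dvd_left (ringChar.dvd h2) (Nat.coprime_two_left.2 h4)
      · exact hc
    obtain ⟨hF, hpow⟩ := field_of_critical m hm1 hm hx hR
    have hfin := hR.1
    refine ⟨hfin, hF, ?_⟩
    let _ : Field R := hF.toField
    have := Fintype.ofFinite R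
    rw [Nat.card_eq_fintype_card, ← FiniteField.forall_pow_eq_one_iff R m]
    intro u
    apply Units.ext
    push_cast
    exact hpow u u.ne_zero
  · rintro ⟨hfin, hF, hd⟩
    let _ : Field R := hF.toField
    have := Fintype.ofFinite R
    refine ⟨critical_of_field R, ?_⟩
    rw [Nat.card_eq_fintype_card, ← FiniteField.forall_pow_eq_one_iff R m] at hd
    intro x
    by_cases hx : x = 0
    · rw [hx, zero_pow (by omega), zero_pow (by omega)]
    · have h1 : x ^ m = 1 := congrArg Units.val (hd (Units.mk0 x hx))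
      rw [pow_add, h1, one_mul]

section nonunital

/-- `pw x k` is the power of `x` with exponent `k + 1`. -/
def pw {R : Type} [Mul R] (x : R) : ℕ → R
  | 0 => x
  | k + 1 => pw x k * x

/-- `R` satisfies the identity `x ^ 3 = x ^ n` (for `n ≥ 1`). -/
def InM (n : ℕ) (R : Type) [NonUnitalRing R] : Prop := ∀ x : R, pw x 2 = pw x (n - 1)

theorem pw_eq {R : Type} [Ring R] (x : R) (k : ℕ) : pw x k = x ^ (k + 1) := by
  induction k with
  | zero => rw [zero_add, pow_one]; rfl
  | succ k ih =>
    change pw x k * x = _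
    rw [ih, ← pow_succ]

variable {R : Type} [NonUnitalRing R]

/-- The elements fixed by `e`. -/
def fixN (e : R) : NonUnitalSubring R where
  carrier := {x | e * x = x}
  add_mem' := by
    intro a b ha hb
    simp only [Set.mem_ofPred_eq] at *
    rw [mul_add, ha, hb]
  zero_mem' := by simp
  neg_mem' := by
    intro a ha
    simp only [Set.mem_ofPred_eq] at *
    rw [mul_neg, ha]
  mul_mem' := by
    intro a b ha _
    simp only [Set.mem_ofPred_eq] at *
    rw [← mul_assoc, ha]

/-- The elements killed by `e`. -/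
def annN (e : R) : NonUnitalSubring R where
  carrier := {x | e * x = 0}
  add_mem' := by
    intro a b ha hb
    simp only [Set.mem_ofPred_eq] at *
    rw [mul_add, ha, hb, add_zero]
  zero_mem' := by simp
  neg_mem' := by
    intro a ha
    simp only [Set.mem_ofPred_eq] at *
    rw [mul_neg, ha, neg_zero]
  mul_mem' := by
    intro a b ha _
    simp only [Set.mem_ofPred_eq] at *
    rw [← mul_assoc, ha, zero_mul]

theorem subring_proper [Finite R] (S : NonUnitalSubring R) (y : R) (hy : y ∉ S) :
    IsEmpty (S ≃+* R) := by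
  constructor
  intro f
  have h3 : Function.Injective (fun x : R => ((f.symm x : S) : R)) :=
    Subtype.val_injective.comp f.symm.injective
  obtain ⟨x, hx⟩ := Finite.injective_iff_surjective.1 h3 y
  exact hy (hx ▸ (f.symm x).2)

theorem subring_factor (S : NonUnitalSubring R) : IsFactor S R :=
  ⟨S, NonUnitalRingHom.id _, Function.surjective_id⟩

theorem eval_fix (e : R) (he : e * e = e) (hc : ∀ x : R, e * x = x * e) (ρ : ℕ → R)
    (t : Term) :
    ((t.eval (fun n => (⟨e * ρ n, show e * (e * ρ n) = e * ρ n by rw [← mul_assoc, he]⟩ :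
      fixN e)) : fixN e) : R) = e * t.eval ρ := by
  induction t with
  | var n => rfl
  | zero => exact (mul_zero e).symm
  | add s t hs ht => exact (congrArg₂ (fun a b : R => a + b) hs ht).trans (mul_add _ _ _).symm
  | neg s hs => exact (congrArg (fun a : R => -a) hs).trans (mul_neg _ _).symm
  | mul s t hs ht =>
    refine (congrArg₂ (fun a b : R => a * b) hs ht).trans ?_
    change e * s.eval ρ * (e * t.eval ρ) = e * (s.eval ρ * t.eval ρ)
    rw [mul_assoc e, ← mul_assoc (s.eval ρ), ← hc (s.eval ρ), mul_assoc e (s.eval ρ), ← mul_assoc e e,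
      he]

theorem eval_ann (e : R) (he : e * e = e) (hc : ∀ x : R, e * x = x * e) (ρ : ℕ → R)
    (t : Term) :
    ((t.eval (fun n => (⟨ρ n - e * ρ n, show e * (ρ n - e * ρ n) = 0 by
      rw [mul_sub, ← mul_assoc, he, sub_self]⟩ : annN e)) : annN e) : R) =
      t.eval ρ - e * t.eval ρ := by
  induction t with
  | var n => rfl
  | zero =>
    change (0 : R) = 0 - e * 0
    rw [mul_zero, sub_zero]
  | add s t hs ht =>
    refine (congrArg₂ (fun a b : R => a + b) hs ht).trans ?_
    change s.eval ρ - e * s.eval ρ + (t.eval ρ - e * t.eval ρ) =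
      s.eval ρ + t.eval ρ - e * (s.eval ρ + t.eval ρ)
    rw [mul_add]
    abel
  | neg s hs =>
    refine (congrArg (fun a : R => -a) hs).trans ?_
    change -(s.eval ρ - e * s.eval ρ) = -s.eval ρ - e * -s.eval ρ
    rw [mul_neg]
    abel
  | mul s t hs ht =>
    refine (congrArg₂ (fun a b : R => a * b) hs ht).trans ?_
    change (s.eval ρ - e * s.eval ρ) * (t.eval ρ - e * t.eval ρ) =
      s.eval ρ * t.eval ρ - e * (s.eval ρ * t.eval ρ)
    have h1 : s.eval ρ * (e * t.eval ρ) = e * (s.eval ρ * t.eval ρ) := by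
      rw [← mul_assoc, ← hc, mul_assoc]
    have h2 : e * s.eval ρ * (e * t.eval ρ) = e * (s.eval ρ * t.eval ρ) := by
      rw [mul_assoc, h1, ← mul_assoc, he]
    rw [sub_mul, mul_sub, mul_sub, h1, h2, mul_assoc]
    abel

/-- A nonzero central idempotent of a critical ring is the identity. -/
theorem one_of_critical (hR : Critical R) (e : R) (he : e * e = e) (he0 : e ≠ 0)
    (hc : ∀ x : R, e * x = x * e) (x : R) : e * x = x := by
  obtain ⟨hfin, s, t, h, hn⟩ := hR
  by_contra hx
  apply hn
  intro ρ
  have h1 := h (fixN e) (subring_factor _) (subring_proper _ x hx)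
  have h2 := h (annN e) (subring_factor _) (subring_proper _ e (fun h0 : e * e = 0 =>
    he0 (he.symm.trans h0)))
  have h3 := congrArg Subtype.val (h1 (fun n => ⟨e * ρ n,
    show e * (e * ρ n) = e * ρ n by rw [← mul_assoc, he]⟩))
  have h4 := congrArg Subtype.val (h2 (fun n => ⟨ρ n - e * ρ n,
    show e * (ρ n - e * ρ n) = 0 by rw [mul_sub, ← mul_assoc, he, sub_self]⟩))
  rw [eval_fix e he hc, eval_fix e he hc] at h3
  rw [eval_ann e he hc, eval_ann e he hc, h3] at h4
  exact sub_left_injective h4

/-- The ring structure with identity `e`. -/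
@[reducible] def unitalOf (e : R) (h : ∀ x : R, e * x = x) (h' : ∀ x : R, x * e = x) : Ring R :=
  { (inferInstance : NonUnitalRing R) with
    one := e
    one_mul := h
    mul_one := h' }

theorem pw_mul {R : Type} [NonUnitalRing R] (x : R) (a b : ℕ) :
    pw x a * pw x b = pw x (a + b + 1) := by
  induction b with
  | zero => rfl
  | succ b ih =>
    change pw x a * (pw x b * x) = pw x (a + b + 1) * x
    rw [← mul_assoc, ih]

theorem pw_period {R : Type} [NonUnitalRing R] (x : R) (m : ℕ) (h : pw x 2 = pw x (m + 2))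
    (j k : ℕ) : pw x (2 + j) = pw x (2 + j + k * m) := by
  have h1 : ∀ j, pw x (2 + j) = pw x (2 + j + m) := by
    intro j
    induction j with
    | zero => rw [add_zero, h, add_comm]
    | succ j ih =>
      have e1 : 2 + (j + 1) + m = (2 + j + m) + 1 := by omega
      rw [e1]
      change pw x (2 + j) * x = pw x (2 + j + m) * x
      rw [ih]
  induction k with
  | zero => rw [Nat.zero_mul, add_zero]
  | succ k ih =>
    have e1 : 2 + j + (k + 1) * m = 2 + (j + k * m) + m := by ring
    have e2 : 2 + j + k * m = 2 + (j + k * m) := by ring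
    rw [e1, ← h1, ← e2, ← ih]

theorem pw_map {R Q : Type} [NonUnitalRing R] [NonUnitalRing Q] (f : R →ₙ+* Q) (x : R) (k : ℕ) :
    f (pw x k) = pw (f x) k := by
  induction k with
  | zero => rfl
  | succ k ih => exact (map_mul f _ _).trans (congrArg (fun a => a * f x) ih)

theorem critical_congr {R K : Type} [NonUnitalRing R] [NonUnitalRing K] (φ : R ≃+* K)
    (hK : Critical K) : Critical R := by
  obtain ⟨hfin, s, t, h, hn⟩ := hK
  refine ⟨Finite.of_equiv K φ.symm.toEquiv, s, t, ?_, ?_⟩
  · rintro Q iQ ⟨S, f, hf⟩ hne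
    refine h Q ?_ ⟨fun g => hne.false (g.trans φ.symm)⟩
    let S' : NonUnitalSubring K :=
      { carrier := {y | φ.symm y ∈ S}
        add_mem' := by
          intro a b ha hb
          simp only [Set.mem_ofPred_eq] at *
          rw [map_add]
          exact S.add_mem ha hb
        zero_mem' := by
          simp only [Set.mem_ofPred_eq]
          rw [map_zero]
          exact S.zero_mem
        neg_mem' := by
          intro a ha
          simp only [Set.mem_ofPred_eq] at *
          rw [map_neg]
          exact S.neg_mem ha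
        mul_mem' := by
          intro a b ha hb
          simp only [Set.mem_ofPred_eq] at *
          rw [map_mul]
          exact S.mul_mem ha hb }
    let g : S' →ₙ+* S :=
      { toFun := fun y => ⟨φ.symm y.1, y.2⟩
        map_mul' := fun a b => Subtype.ext (map_mul φ.symm a.1 b.1)
        map_zero' := Subtype.ext (map_zero φ.symm)
        map_add' := fun a b => Subtype.ext (map_add φ.symm a.1 b.1) }
    refine ⟨S', f.comp g, fun q => ?_⟩
    obtain ⟨a, rfl⟩ := hf q
    have ha : φ.symm (φ a.1) ∈ S := by rw [φ.symm_apply_apply]; exact a.2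
    refine ⟨⟨φ a.1, ha⟩, ?_⟩
    change f ⟨φ.symm (φ a.1), ha⟩ = f a
    congr 1
    exact Subtype.ext (φ.symm_apply_apply a.1)
  · intro hR
    apply hn
    intro ρ
    let ψ : R →ₙ+* K :=
      { toFun := φ
        map_mul' := map_mul φ
        map_zero' := map_zero φ
        map_add' := map_add φ }
    have h1 : (fun n => ψ (φ.symm (ρ n))) = ρ := funext fun n => φ.apply_symm_apply (ρ n)
    have h2 := congrArg ψ (hR (fun n => φ.symm (ρ n)))
    rw [eval_map, eval_map, h1] at h2
    exact h2

end nonunital

/-- Let `n ≥ 4` and let `R` be a ring, not necessarily with identity. Suppose that `n` is even, or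
that the additive group of `R` has an exponent coprime to `n - 3`. Then the following are
equivalent: (1) `R` is critical, satisfies `x ^ 3 = x ^ n` and has a nonzero central idempotent (for
instance an identity); (2) `R` is isomorphic to a finite field `K` with `|K| - 1` dividing `n - 3`.
Moreover a commutative critical ring satisfying `x ^ 3 = x ^ n` either satisfies `x ^ 3 = 0` or has
these properties. -/
theorem result (n : ℕ) (hn : 4 ≤ n) (R : Type) [NonUnitalRing R]
    (hc : Even n ∨ ∃ c : ℕ, c.Coprime (n - 3) ∧ ∀ x : R, c • x = 0) :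
    ((Critical R ∧ InM n R ∧ ∃ e : R, e ≠ 0 ∧ e * e = e ∧ ∀ x, e * x = x * e) ↔
      ∃ (K : Type) (_ : Field K), Finite K ∧ Nonempty (R ≃+* K) ∧ (Nat.card K - 1) ∣ n - 3) ∧
    (Critical R → InM n R → (∀ x y : R, x * y = y * x) →
      (∀ x : R, x * x * x = 0) ∨
      ∃ (K : Type) (_ : Field K), Finite K ∧ Nonempty (R ≃+* K) ∧ (Nat.card K - 1) ∣ n - 3) := by
  have key : (Critical R ∧ InM n R ∧ ∃ e : R, e ≠ 0 ∧ e * e = e ∧ ∀ x, e * x = x * e) →
      ∃ (K : Type) (_ : Field K), Finite K ∧ Nonempty (R ≃+* K) ∧ (Nat.card K - 1) ∣ n - 3 := by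
    rintro ⟨hR, hM, e, he0, he, hce⟩
    have h1 := one_of_critical hR e he he0 hce
    have h2 : ∀ x : R, x * e = x := fun x => (hce x).symm.trans (h1 x)
    let iR : Ring R := unitalOf e h1 h2
    have hM' : ∀ x : R, x ^ 3 = x ^ n := by
      intro x
      have h3 := hM x
      have h4 : pw x 2 = x ^ 3 := pw_eq x 2
      have h5 : pw x (n - 1) = x ^ n := by
        rw [pw_eq x (n - 1)]
        congr 1
        omega
      rw [← h4, ← h5]
      exact h3
    have hc' : Even n ∨ (ringChar R).Coprime (n - 3) := by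
      rcases hc with hc | ⟨c, hc1, hc2⟩
      · exact Or.inl hc
      · right
        refine Nat.Coprime.coprime_dvd_left (ringChar.dvd ?_) hc1
        rw [← nsmul_one]
        exact hc2 1
    obtain ⟨hf, hF, hd⟩ := (unital_iff n hn R hc').1 ⟨hR, hM'⟩
    exact ⟨R, hF.toField, hf, ⟨RingEquiv.refl R⟩, hd⟩
  refine ⟨⟨key, ?_⟩, ?_⟩
  · rintro ⟨K, iK, hfin, ⟨φ⟩, hd⟩
    obtain ⟨hcK, hMK⟩ : Critical K ∧ ∀ x : K, x ^ 3 = x ^ n := by
      have := Fintype.ofFinite K
      refine ⟨critical_of_field K, ?_⟩
      rw [Nat.card_eq_fintype_card, ← FiniteField.forall_pow_eq_one_iff K (n - 3)] at hd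
      intro x
      by_cases hx : x = 0
      · rw [hx, zero_pow (by omega), zero_pow (by omega)]
      · have h1 : x ^ (n - 3) = 1 := congrArg Units.val (hd (Units.mk0 x hx))
        have h2 : n = (n - 3) + 3 := by omega
        rw [h2, pow_add, h1, one_mul]
    let ψ : R →ₙ+* K :=
      { toFun := φ
        map_mul' := map_mul φ
        map_zero' := map_zero φ
        map_add' := map_add φ }
    refine ⟨critical_congr φ hcK, ?_, φ.symm 1, ?_, ?_, ?_⟩
    · intro x
      apply φ.injective
      change ψ (pw x 2) = ψ (pw x (n - 1))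
      rw [pw_map, pw_map, pw_eq, pw_eq, hMK]
      congr 1
      omega
    · intro h
      have h1 := congrArg φ h
      rw [φ.apply_symm_apply, map_zero] at h1
      exact one_ne_zero h1
    · rw [← map_mul, mul_one]
    · intro x
      apply φ.injective
      rw [map_mul, map_mul, φ.apply_symm_apply, mul_comm]
  · intro hR hM hcomm
    by_cases h0 : ∀ x : R, x * x * x = 0
    · exact Or.inl h0
    · right
      push Not at h0
      obtain ⟨x, hx⟩ := h0
      obtain ⟨m, rfl⟩ : ∃ m, n = m + 4 := ⟨n - 4, by omega⟩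
      have hp : pw x 2 = pw x ((m + 1) + 2) := hM x
      have hx' : pw x 2 ≠ 0 := hx
      refine key ⟨hR, hM, pw x (2 + 3 * m), ?_, ?_, fun y => hcomm _ _⟩
      · intro h
        apply hx'
        have h1 := pw_mul x 2 (2 + 3 * m)
        rw [h, mul_zero] at h1
        have h2 := pw_period x (m + 1) hp 0 3
        have h3 : 2 + 0 + 3 * (m + 1) = 2 + (2 + 3 * m) + 1 := by ring
        rw [h3, ← h1] at h2
        exact h2
      · rw [pw_mul]
        have h2 := pw_period x (m + 1) hp (3 * m) 3
        have h3 : 2 + 3 * m + 3 * (m + 1) = 2 + 3 * m + (2 + 3 * m) + 1 := by ring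
        rw [h3] at h2
        exact h2.symm

end Pool.Agent.Results.MP_1bb14d_al.UnitalCritical
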